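import Mathlib
import Pool.Agent.H184R3.Main

set_option autoImplicit false

namespace Pool.Agent.Results.MP_8eaa9c_co.ZigzagCriterion

open Finset Pool.Agent.H184R3

/-- `Zigzag up σ`: the values of `σ` split into a lowest, a middle and a highest block (some may be
empty) such that the entries of the lowest and of the highest block are increasing and those of the
middle block are decreasing (`up = true`), or the other way round (`up = false`). -/
def Zigzag (up : Bool) {N : ℕ} (σ : Equiv.Perm (Fin N)) : Prop :=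
  ∃ lv : Fin N → Fin 3, (∀ a b, lv a < lv b → σ a < σ b) ∧
    ∀ a b, a < b → lv a = lv b → (σ a < σ b ↔ ((lv a ≠ 1) ↔ up = true))

/-- `P` is `𝓕`-restricted. -/
def Restricted {N : ℕ} (𝓕 : Finset (Finset (Equiv.Perm (Fin N)))) {n : ℕ}
    (P : Finset (Equiv.Perm (Fin n))) : Prop :=
  ∀ x : Fin N → Fin n, StrictMono x → ∃ F ∈ 𝓕, ∀ τ ∈ F, ∀ π ∈ P,
    ¬ ∀ a b : Fin N, (τ a < τ b ↔ π (x a) < π (x b))

/-- wt comparison -/
lemma wt_iff {N : ℕ} (t : Bool) (σ : Equiv.Perm (Fin N)) (lv : Fin N → Fin 3)
    (h1 : ∀ a b, lv a < lv b → σ a < σ b)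
    (h2 : ∀ a b, a < b → lv a = lv b → (σ a < σ b ↔ ((lv a ≠ 1) ↔ t = true))) (a b : Fin N) :
    σ a < σ b ↔ wt N t (lv a) a < wt N t (lv b) b := by
  have ha := a.2
  have hb := b.2
  rcases lt_trichotomy (lv a) (lv b) with h | h | h
  · have h3 := h1 a b h
    simp only [h3, true_iff]
    revert h
    generalize lv a = u
    generalize lv b = v
    intro h
    fin_cases u <;> fin_cases v <;> cases t <;> simp [wt] at h ⊢ <;> omega
  · rcases lt_trichotomy a b with hab | hab | hab
    · have h3 := h2 a b hab h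
      have hab' : (a : ℕ) < b := hab
      rw [h3, h]
      generalize lv b = v
      fin_cases v <;> cases t <;> simp [wt] <;> omega
    · subst hab
      simp
    · have h3 := h2 b a hab h.symm
      have hab' : (b : ℕ) < a := hab
      have h4 : σ a < σ b ↔ ¬ σ b < σ a := by
        have : σ a ≠ σ b := fun he => hab.ne (σ.injective he).symm
        constructor
        · intro h5; exact not_lt.2 h5.le
        · intro h5; exact lt_of_le_of_ne (not_lt.1 h5) this
      rw [h4, h3, h]
      generalize lv b = v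
      fin_cases v <;> cases t <;> simp [wt] <;> omega
  · have h3 := h1 b a h
    have h4 : ¬ σ a < σ b := not_lt.2 h3.le
    simp only [h4, false_iff]
    revert h
    generalize lv a = u
    generalize lv b = v
    intro h
    fin_cases u <;> fin_cases v <;> cases t <;> simp [wt] at h ⊢ <;> omega

/-- If every member of `𝓕` contains an up-zigzag pattern and a down-zigzag pattern, then `𝓕` has
exponential behaviour. -/
theorem result (N : ℕ) (𝓕 : Finset (Finset (Equiv.Perm (Fin N))))
    (h𝓕 : ∀ F ∈ 𝓕, ∀ up : Bool, ∃ σ ∈ F, Zigzag up σ) :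
    ∃ C : ℝ, ∀ n : ℕ, ∀ P : Finset (Equiv.Perm (Fin n)), Restricted 𝓕 P →
      (P.card : ℝ) ≤ C ^ n := by
  obtain ⟨K, hK⟩ := main_bound N
  refine ⟨(K : ℝ), fun n P hP => ?_⟩
  let P' : Finset (Fin n → Fin n) :=
    P.image (fun (π : Equiv.Perm (Fin n)) => (fun x => π x : Fin n → Fin n))
  have hcard : P'.card = P.card :=
    Finset.card_image_of_injective P
      (fun (π π' : Equiv.Perm (Fin n)) h => Equiv.ext (fun x => congrFun h x))
  have hmain : P'.card ≤ K ^ n := by
    apply hK
    · intro f hf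
      obtain ⟨π, -, rfl⟩ := Finset.mem_image.1 hf
      exact π.injective
    · rintro ⟨t, p, hp, hc⟩
      obtain ⟨F, hF, hno⟩ := hP p hp
      obtain ⟨σ, hσ, lv, h1, h2⟩ := h𝓕 F hF t
      obtain ⟨g, hg, hgc⟩ := hc lv
      obtain ⟨π, hπ, rfl⟩ := Finset.mem_image.1 (Finset.mem_coe.1 hg)
      refine hno σ hσ π hπ ?_
      intro a b
      rw [wt_iff t σ lv h1 h2]
      exact (hgc a b).symm
  rw [← hcard]
  exact_mod_cast hmain

end Pool.Agent.Results.MP_8eaa9c_co.ZigzagCriterion
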